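import Mathlib
import Pool.Agent.P.MP_ca32ed_co.Main

namespace Pool.Agent.Results.MP_ca32ed_co.SixAlpha

/-- Every finite graph with connectivity at least six times its independence number is
pancyclic. -/
theorem result :
    ∀ (V : Type) [Fintype V] (G : SimpleGraph V),
      6 * G.indepNum < Fintype.card V →
      (∀ S : Finset V, S.card < 6 * G.indepNum →
        (G.induce ((↑S : Set V)ᶜ)).Connected) →
      ∀ ℓ : ℕ, 3 ≤ ℓ → ℓ ≤ Fintype.card V →
        ∃ (u : V) (p : G.Walk u u), p.IsCycle ∧ p.length = ℓ := by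
  intro V _ G hn hc L h3 hL
  refine (JO6.hasCyc (k := G.indepNum) (fun I hI => ?_) (JO6.sep_of_conn hc) hn h3 hL).walk h3
  exact SimpleGraph.IsIndepSet.card_le_indepNum fun a ha b hb _ => hI a ha b hb

end Pool.Agent.Results.MP_ca32ed_co.SixAlpha
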